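import Pool.Agent.Y283.NK.Stm

/-!
# Project NK: choice of the coupling and of the radius
-/

set_option autoImplicit false

namespace Pool.Agent.Y487.NK

open MeasureTheory Set Metric Filter Topology
open scoped ENNReal NNReal

/-- Fatou's lemma along an infinite set -/
theorem fatou {X : Type*} [MeasurableSpace X] (ν : Measure X) (H : ℕ → X → ℝ≥0∞)
    (hH : ∀ n, Measurable (H n)) (I : Set ℕ) (hI : I.Infinite) (C : ℝ≥0)
    (h : ∀ n ∈ I, ∫⁻ x, H n x ∂ν ≤ C) :
    ∀ᵐ x ∂ν, ∃ (J : Set ℕ) (B : ℝ≥0), J.Infinite ∧ J ⊆ I ∧ ∀ n ∈ J, H n x ≤ B := by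
  classical
  obtain ⟨e, he⟩ : ∃ e : ℕ → ℕ, e = Nat.nth (· ∈ I) := ⟨_, rfl⟩
  have heI : ∀ k, e k ∈ I := by
    intro k
    rw [he]
    exact Nat.nth_mem_of_infinite hI k
  have hinj : Function.Injective e := by
    rw [he]
    exact Nat.nth_injective hI
  have h1 : ∫⁻ x, liminf (fun k => H (e k) x) atTop ∂ν ≤ C := by
    refine (lintegral_liminf_le fun k => hH (e k)).trans ?_
    refine liminf_le_of_frequently_le' ?_
    exact Frequently.of_forall fun k => h _ (heI k)
  have hm : Measurable fun x => liminf (fun k => H (e k) x) atTop :=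
    Measurable.liminf fun k => hH (e k)
  have h2 : ∀ᵐ x ∂ν, liminf (fun k => H (e k) x) atTop < ⊤ :=
    ae_lt_top hm (ne_top_of_le_ne_top ENNReal.coe_ne_top h1)
  filter_upwards [h2] with x hx
  obtain ⟨B, hB1, hB2⟩ := ENNReal.lt_iff_exists_nnreal_btwn.1 hx
  refine ⟨{n | n ∈ I ∧ H n x ≤ B}, B, ?_, fun n hn => hn.1, fun n hn => hn.2⟩
  have h3 : ∃ᶠ k in atTop, H (e k) x < B := frequently_lt_of_liminf_lt (by isBoundedDefault) hB1
  have h4 : {k | H (e k) x < B}.Infinite := Nat.frequently_atTop_iff_infinite.1 h3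
  refine (h4.image hinj.injOn).mono ?_
  rintro _ ⟨k, hk, rfl⟩
  exact ⟨heI k, le_of_lt hk⟩

theorem main_sel : Pool.Agent.Y283.NK.S_SEL := by
  intro m _ R R' G C hG h
  have hH : ∀ n, Measurable fun t => ∫⁻ z in ball (0:ℂ) R', G n z t := by
    intro n
    exact Measurable.lintegral_prod_left' (f := fun p : ℂ × ℂ => G n p.1 p.2) (hG n)
  have key := fatou (m.restrict (ball (0:ℂ) R)) (fun n t => ∫⁻ z in ball (0:ℂ) R', G n z t) hH
    Set.univ Set.infinite_univ C (by
      intro n _
      rw [lintegral_lintegral_swap]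
      · exact h n
      · have h1 : Measurable (Function.uncurry fun (t z : ℂ) => G n z t) :=
          (hG n).comp measurable_swap
        exact h1.aemeasurable)
  filter_upwards [key] with t ht
  obtain ⟨J, B, h1, -, h2⟩ := ht
  exact ⟨J, B, h1, h2⟩

/-- shift of the period interval -/
theorem shift (f : ℝ → ENNReal) (hf : Function.Periodic f (2 * Real.pi)) :
    (∫⁻ θ in Ioc (0:ℝ) (2 * Real.pi), f θ) = ∫⁻ θ in Ioo (-Real.pi) Real.pi, f θ := by
  have hT : 0 < 2 * Real.pi := by positivity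
  have h1 := isAddFundamentalDomain_Ioc hT 0 volume
  have h2 := isAddFundamentalDomain_Ioc hT (-Real.pi) volume
  have h3 := h1.setLIntegral_eq h2 f ?_
  · rw [zero_add] at h3
    have e : -Real.pi + 2 * Real.pi = Real.pi := by ring
    rw [e] at h3
    rw [h3, setLIntegral_congr Ioo_ae_eq_Ioc]
  · rintro ⟨g, hg⟩ x
    obtain ⟨n, rfl⟩ := AddSubgroup.mem_zmultiples_iff.mp hg
    change f (n • (2 * Real.pi) + x) = f x
    rw [add_comm]
    exact hf.zsmul n x

/-- polar coordinates -/
theorem polar (g : ℂ → ℝ≥0∞) (hg : Measurable g) (c : ℂ) (ρ : ℝ) (hρ : 0 < ρ) :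
    ENNReal.ofReal (ρ / 2) * ∫⁻ r in Ioc (ρ / 2) ρ, ∫⁻ θ in Ioc (0:ℝ) (2 * Real.pi),
      g (circleMap c r θ) ≤ ∫⁻ z in closedBall c ρ, g z := by
  set f : ℂ → ENNReal := (closedBall (0:ℂ) ρ).indicator (fun z => g (c + z)) with hf
  have hfm : Measurable f := (hg.comp (measurable_const_add c)).indicator measurableSet_closedBall
  have h0 : ∫⁻ z in closedBall c ρ, g z = ∫⁻ z, f z := by
    symm
    rw [← lintegral_indicator measurableSet_closedBall,
      ← lintegral_add_left_eq_self ((closedBall c ρ).indicator fun a => g a) c]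
    congr 1
    ext z
    simp [f, indicator, mem_closedBall, dist_eq_norm]
  have hcont : Continuous fun p : ℝ × ℝ => Complex.polarCoord.symm p := by
    simp only [Complex.polarCoord_symm_apply]
    fun_prop
  have hmeas : Measurable fun p : ℝ × ℝ => ENNReal.ofReal p.1 • f (Complex.polarCoord.symm p) := by
    simp only [smul_eq_mul]
    exact (ENNReal.measurable_ofReal.comp measurable_fst).mul (hfm.comp hcont.measurable)
  have h2 := Complex.lintegral_comp_polarCoord_symm f
  rw [polarCoord_target, Measure.volume_eq_prod, ← Measure.prod_restrict,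
    lintegral_prod _ hmeas.aemeasurable] at h2
  rw [h0, ← h2]
  have hsub : Ioc (ρ / 2) ρ ⊆ Ioi (0:ℝ) := fun r hr => lt_trans (by positivity) hr.1
  refine le_trans ?_ (lintegral_mono_set hsub)
  rw [← lintegral_const_mul' _ _ ENNReal.ofReal_ne_top]
  apply setLIntegral_mono' measurableSet_Ioc
  intro r hr
  have hr0 : 0 < r := hsub hr
  rw [shift (fun θ => g (circleMap c r θ)) (fun θ => by
    show g (circleMap c r (θ + 2 * Real.pi)) = _
    rw [periodic_circleMap c r θ])]
  rw [← lintegral_const_mul' _ _ ENNReal.ofReal_ne_top]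
  apply lintegral_mono
  intro y
  have e1 : Complex.polarCoord.symm (r, y) = r * Complex.exp (y * Complex.I) := by
    rw [Complex.polarCoord_symm_apply, Complex.exp_mul_I]
    simp
  have e2 : (r : ℂ) * Complex.exp (y * Complex.I) ∈ closedBall (0:ℂ) ρ := by
    rw [mem_closedBall, dist_zero_right, norm_mul, Complex.norm_exp_ofReal_mul_I, mul_one,
      Complex.norm_real, Real.norm_eq_abs, abs_of_pos hr0]
    exact hr.2
  have e3 : f (Complex.polarCoord.symm (r, y)) = g (circleMap c r y) := by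
    rw [e1, hf, indicator_of_mem e2]
    rfl
  simp only [e3, smul_eq_mul]
  apply mul_le_mul_left
  exact ENNReal.ofReal_le_ofReal hr.1.le

theorem main_csel : Pool.Agent.Y283.NK.S_CSEL := by
  intro R g I B c ρ hg hI hB hρ hsub
  have hH : ∀ n, Measurable fun r : ℝ => ∫⁻ θ in Ioc (0:ℝ) (2 * Real.pi), g n (circleMap c r θ) := by
    intro n
    have hc : Continuous fun p : ℝ × ℝ => circleMap c p.1 p.2 := by
      unfold circleMap
      fun_prop
    exact Measurable.lintegral_prod_right' (f := fun p : ℝ × ℝ => g n (circleMap c p.1 p.2))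
      ((hg n).comp hc.measurable)
  obtain ⟨C, hC⟩ : ∃ C : ℝ≥0, (C : ℝ≥0∞) = B / ENNReal.ofReal (ρ / 2) := by
    have h1 : (B : ℝ≥0∞) / ENNReal.ofReal (ρ / 2) ≠ ⊤ :=
      ENNReal.div_ne_top ENNReal.coe_ne_top (ENNReal.ofReal_pos.2 (by positivity)).ne'
    exact ⟨(B / ENNReal.ofReal (ρ / 2)).toNNReal, ENNReal.coe_toNNReal h1⟩
  apply fatou _ _ hH I hI C
  intro n hn
  rw [hC, ENNReal.le_div_iff_mul_le (Or.inl (ENNReal.ofReal_pos.2 (by positivity)).ne')
    (Or.inl ENNReal.ofReal_ne_top), mul_comm]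
  exact (polar (g n) (hg n) c ρ hρ).trans ((lintegral_mono_set hsub).trans (hB n hn))

end Pool.Agent.Y487.NK
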